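import Mathlib

/-!
Every infinite group without involutions is the automorphism group of a tournament with at most
six vertex orbits (three regular orbits and three fixed vertices).
-/

namespace Pool.Agent.Results.MP_4ac3ef_co.Six

universe u

section Gen
variable {G : Type u} [Group G]

/-- data used by the construction -/
structure Data (G : Type u) [Group G] where
  P : Set G
  Y : Set G
  Z : Set G
  S : Set G
  P1 : 1 ∉ P
  Pinv : ∀ g, g ≠ 1 → (g ∈ P ↔ g⁻¹ ∉ P)
  Y1 : 1 ∈ Y
  Z1 : 1 ∈ Z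
  gen : Subgroup.closure (Y ∪ Z) = ⊤
  rig : ∀ α β : G → G, (∀ y ∈ Y, α y ∈ Y) → (∀ z ∈ Z, β z ∈ Z) →
    (∀ y ∈ Y, ∀ z ∈ Z, (y⁻¹ * z ∈ S ↔ (α y)⁻¹ * β z ∈ S)) →
    (∀ y ∈ Y, ∃ y' ∈ Y, α y' = y) → (∀ z ∈ Z, ∃ z' ∈ Z, β z' = z) →
    (∀ y ∈ Y, α y = y) ∧ (∀ z ∈ Z, β z = z)

theorem fix_of_mono {A : Type u} [LinearOrder A] [WellFoundedLT A] (Y : Set A) (α : A → A)
    (h1 : ∀ y ∈ Y, α y ∈ Y) (h2 : ∀ y ∈ Y, ∀ y' ∈ Y, y < y' → α y < α y')
    (h3 : ∀ y ∈ Y, ∃ y' ∈ Y, α y' = y) : ∀ y ∈ Y, α y = y := by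
  intro y
  induction y using WellFoundedLT.induction with
  | _ y ih =>
    intro hy
    rcases lt_trichotomy (α y) y with h | h | h
    · have := h2 _ (h1 y hy) _ hy h
      rw [ih _ h (h1 y hy)] at this
      exact absurd this (lt_irrefl _)
    · exact h
    · obtain ⟨y', hy', e⟩ := h3 y hy
      rcases lt_trichotomy y' y with h' | h' | h'
      · rw [ih _ h' hy'] at e; exact absurd e h'.ne
      · rw [h'] at e; exact e
      · have := h2 _ hy _ hy' h'
        rw [e] at this; exact absurd (h.trans this) (lt_irrefl _)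

theorem exists_data (hG : ∀ g : G, g * g = 1 → g = 1) : Nonempty (Data G) := by
  classical
  obtain ⟨lo0, wf0⟩ := exists_wellOrder G
  obtain ⟨m, -, hm⟩ := (@wellFounded_lt G lo0.toLT wf0).has_min Set.univ ⟨1, trivial⟩
  letI lo : LinearOrder G := @LinearOrder.lift' G G lo0 (fun g => m * g) (mul_right_injective m)
  haveI wf : WellFoundedLT G :=
    ⟨InvImage.wf (fun g => m * g) (@wellFounded_lt G lo0.toLT wf0)⟩
  have one_le : ∀ g : G, 1 ≤ g := fun g => by
    rw [← not_lt]
    intro h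
    apply hm (m * g) trivial
    have : @LT.lt G lo0.toLT (m * g) (m * 1) := h
    rwa [mul_one] at this
  let X : Set G := {x | x ∉ Subgroup.closure (Set.Iio x)}
  have X1 : (1 : G) ∉ X := fun h => h (Subgroup.one_mem _)
  let odd : G → Prop := (wellFounded_lt (α := G)).fix (C := fun _ => Prop)
    (fun x f => ∃ y, ∃ h : y < x, y ∈ X ∧ (∀ z ∈ X, z < x → z ≤ y) ∧ ¬ f y h)
  have hodd : ∀ x, odd x ↔ ∃ y, y < x ∧ y ∈ X ∧ (∀ z ∈ X, z < x → z ≤ y) ∧ ¬ odd y := by
    intro x
    have := (wellFounded_lt (α := G)).fix_eq (C := fun _ => Prop)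
      (fun x f => ∃ y, ∃ h : y < x, y ∈ X ∧ (∀ z ∈ X, z < x → z ≤ y) ∧ ¬ f y h) x
    constructor
    · intro h
      obtain ⟨y, h1, h2⟩ := this.mp h
      exact ⟨y, h1, h2⟩
    · rintro ⟨y, h1, h2⟩
      exact this.mpr ⟨y, h1, h2⟩
  have succ : ∀ a b, a < b → b ∈ X → ∃ s ∈ X, a < s ∧ s ≤ b ∧ ∀ z ∈ X, z < s → z ≤ a := by
    intro a b hab hb
    obtain ⟨s, hs, hmin⟩ := (wellFounded_lt (α := G)).has_min {s | s ∈ X ∧ a < s} ⟨b, hb, hab⟩
    exact ⟨s, hs.1, hs.2, not_lt.1 (hmin b ⟨hb, hab⟩), fun z hz h =>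
      not_lt.1 fun h' => hmin z ⟨hz, h'⟩ h⟩
  have flip : ∀ a ∈ X, ∀ s, a < s → (∀ z ∈ X, z < s → z ≤ a) → (odd s ↔ ¬ odd a) := by
    intro a ha s h1 h2
    rw [hodd s]
    constructor
    · rintro ⟨y, h3, h4, h5, h6⟩
      rwa [le_antisymm (h5 a ha h1) (h2 y h4 h3)]
    · exact fun h => ⟨a, h1, ha, h2, h⟩
  let lev : G → G → Prop := fun d x =>
    d ∈ Subgroup.closure (Set.Iic x) ∧ d ∉ Subgroup.closure (Set.Iio x)
  have levu : ∀ d x x', lev d x → lev d x' → x = x' := by
    intro d x x' h h'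
    rcases lt_trichotomy x x' with e | e | e
    · exact absurd (Subgroup.closure_mono (Set.Iic_subset_Iio.2 e) h.1) h'.2
    · exact e
    · exact absurd (Subgroup.closure_mono (Set.Iic_subset_Iio.2 e) h'.1) h.2
  have levr : ∀ a x, a < x → x ∈ X → lev (a⁻¹ * x) x := by
    intro a x h hx
    refine ⟨Subgroup.mul_mem _ (Subgroup.inv_mem _ (Subgroup.subset_closure h.le))
      (Subgroup.subset_closure (le_refl x)), fun h' => hx ?_⟩
    have := Subgroup.mul_mem _ (Subgroup.subset_closure (k := Set.Iio x) h) h'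
    rwa [mul_inv_cancel_left] at this
  have levi : ∀ d x, lev d x → lev d⁻¹ x := fun d x h =>
    ⟨Subgroup.inv_mem _ h.1, fun h' => h.2 (by simpa using Subgroup.inv_mem _ h')⟩
  let Y : Set G := {y | y = 1 ∨ (y ∈ X ∧ ¬ odd y)}
  let Z : Set G := {z | z = 1 ∨ (z ∈ X ∧ odd z)}
  let S : Set G := {d | d = 1 ∨ ∃ x, odd x ∧ lev d x}
  have hS : ∀ y ∈ Y, ∀ z ∈ Z, (y⁻¹ * z ∈ S ↔ y ≤ z) := by
    intro y hy z hz
    rcases lt_trichotomy y z with h | h | h
    · refine ⟨fun _ => h.le, fun _ => ?_⟩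
      rcases hz with rfl | hz
      · exact absurd h (not_lt.2 (one_le y))
      · exact Or.inr ⟨z, hz.2, levr y z h hz.1⟩
    · exact ⟨fun _ => h.le, fun _ => Or.inl (by rw [h, inv_mul_cancel])⟩
    · refine ⟨fun h' => ?_, fun h' => absurd h (not_lt.2 h')⟩
      exfalso
      rcases hy with rfl | hy
      · exact absurd h (not_lt.2 (one_le z))
      · have l := levi _ _ (levr z y h hy.1)
        rw [mul_inv_rev, inv_inv] at l
        rcases h' with h' | ⟨x, hx, h'⟩
        · exact h.ne' (inv_mul_eq_one.1 h')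
        · exact hy.2 (levu _ _ _ h' l ▸ hx)
  refine ⟨⟨{g | g < g⁻¹}, Y, Z, S, by simp, ?_, Or.inl rfl, Or.inl rfl, ?_, ?_⟩⟩
  · intro g hg
    have : g ≠ g⁻¹ := fun h => hg (hG g (by nth_rewrite 2 [h]; exact mul_inv_cancel g))
    simp only [Set.mem_setOf_eq, inv_inv, not_lt]
    exact ⟨le_of_lt, fun h => lt_of_le_of_ne h this⟩
  · rw [eq_top_iff]
    intro g _
    induction g using WellFoundedLT.induction with
    | _ g ih =>
      by_cases hx : g ∈ X
      · by_cases ho : odd g
        · exact Subgroup.subset_closure (Or.inr (Or.inr ⟨hx, ho⟩))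
        · exact Subgroup.subset_closure (Or.inl (Or.inr ⟨hx, ho⟩))
      · have : g ∈ Subgroup.closure (Set.Iio g) := not_not.1 hx
        exact (Subgroup.closure_le _).2 (fun a ha => ih a ha trivial) this
  · intro α β hα hβ h sα sβ
    have h' : ∀ y ∈ Y, ∀ z ∈ Z, (y ≤ z ↔ α y ≤ β z) := fun y hy z hz => by
      rw [← hS y hy z hz, ← hS _ (hα y hy) _ (hβ z hz)]; exact h y hy z hz
    constructor
    · refine fix_of_mono Y α hα (fun y hy y' hy' hl => ?_) sα
      obtain ⟨z, hz, h1, h2⟩ : ∃ z ∈ Z, y ≤ z ∧ z < y' := by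
        rcases hy with rfl | hy
        · exact ⟨1, Or.inl rfl, le_rfl, hl⟩
        · rcases hy' with rfl | hy'
          · exact absurd hl (not_lt.2 (one_le y))
          · obtain ⟨s, s1, s2, s3, s4⟩ := succ y y' hl hy'.1
            have so := (flip y hy.1 s s2 s4).2 hy.2
            exact ⟨s, Or.inr ⟨s1, so⟩, s2.le, lt_of_le_of_ne s3 fun e => hy'.2 (e ▸ so)⟩
      exact lt_of_le_of_lt ((h' y hy z hz).1 h1)
        (not_le.1 fun h3 => not_le.2 h2 ((h' y' hy' z hz).2 h3))
    · refine fix_of_mono Z β hβ (fun z hz z' hz' hl => ?_) sβ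
      obtain ⟨y, hy, h1, h2⟩ : ∃ y ∈ Y, z < y ∧ y ≤ z' := by
        rcases hz' with rfl | hz'
        · exact absurd hl (not_lt.2 (one_le z))
        · obtain ⟨s, s1, s2, s3, s4⟩ := succ z z' hl hz'.1
          refine ⟨s, Or.inr ⟨s1, fun so => ?_⟩, s2, s3⟩
          rcases hz with rfl | hz
          · obtain ⟨y, h3, h4, -⟩ := (hodd s).1 so
            exact X1 (le_antisymm (s4 y h4 h3) (one_le y) ▸ h4)
          · exact (flip z hz.1 s s2 s4).1 so hz.2
      exact lt_of_lt_of_le (not_le.1 fun h3 => not_le.2 h1 ((h' y hy z hz).2 h3))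
        ((h' y hy z' hz').1 h2)

/-- vertices -/
inductive Vx (G : Type u) : Type u
  | s | f1 | f2 | a (g : G) | b (g : G) | c (g : G)

open Vx

/-- arcs -/
def E (D : Data G) : Vx G → Vx G → Prop
  | s, s => False | s, f1 => False | s, f2 => False
  | s, a _ => True | s, b _ => True | s, c _ => True
  | f1, s => True | f1, f1 => False | f1, f2 => True
  | f1, a _ => True | f1, b _ => False | f1, c _ => True
  | f2, s => True | f2, f1 => False | f2, f2 => False
  | f2, a _ => True | f2, b _ => True | f2, c _ => False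
  | a _, s => False | a _, f1 => False | a _, f2 => False
  | a g, a h => g⁻¹ * h ∈ D.P | a g, b h => g⁻¹ * h ∈ D.Y | a g, c h => g⁻¹ * h ∈ D.Z
  | b _, s => False | b _, f1 => True | b _, f2 => False
  | b h, a g => g⁻¹ * h ∉ D.Y | b g, b h => g⁻¹ * h ∈ D.P | b g, c h => g⁻¹ * h ∈ D.S
  | c _, s => False | c _, f1 => False | c _, f2 => True
  | c h, a g => g⁻¹ * h ∉ D.Z | c h, b g => g⁻¹ * h ∉ D.S | c g, c h => g⁻¹ * h ∈ D.P

variable (D : Data G)

theorem E_irr (v : Vx G) : ¬ E D v v := by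
  cases v <;> simp [E, D.P1]

theorem Ptour {g h : G} (e : g ≠ h) : g⁻¹ * h ∈ D.P ↔ h⁻¹ * g ∉ D.P := by
  have := D.Pinv (g⁻¹ * h) (fun t => e (inv_mul_eq_one.1 t))
  rwa [mul_inv_rev, inv_inv] at this

theorem E_tour (x y : Vx G) (h : x ≠ y) : E D x y ↔ ¬ E D y x := by
  cases x <;> cases y <;> first
    | exact absurd rfl h
    | exact Ptour D (fun e => h (by rw [e]))
    | simp [E]

/-- the action on vertices -/
def act (t : G) : Vx G → Vx G
  | s => s | f1 => f1 | f2 => f2 | a g => a (t * g) | b g => b (t * g) | c g => c (t * g)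

theorem act_mul (t r : G) (v : Vx G) : act (t * r) v = act t (act r v) := by
  cases v <;> simp [act, mul_assoc]

theorem act_one (v : Vx G) : act (1 : G) v = v := by
  cases v <;> simp [act]

/-- left multiplication -/
def lm (t : G) : E D ≃r E D where
  toFun := act t
  invFun := act t⁻¹
  left_inv v := by rw [← act_mul, inv_mul_cancel, act_one]
  right_inv v := by rw [← act_mul, mul_inv_cancel, act_one]
  map_rel_iff' := by
    intro x y
    show E D (act t x) (act t y) ↔ _
    cases x <;> cases y <;> simp [E, act, mul_assoc]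

/-- left multiplication as a homomorphism -/
def lmh : G →* (E D ≃r E D) :=
  MonoidHom.mk' (lm D) (fun t r => RelIso.ext fun v => act_mul t r v)

theorem P_inf [Infinite G] : D.P.Infinite := by
  intro h
  have : (Set.univ : Set G) ⊆ insert 1 (D.P ∪ (fun g => g⁻¹) '' D.P) := by
    intro g _
    by_cases h1 : g = 1
    · exact Or.inl h1
    · by_cases h2 : g ∈ D.P
      · exact Or.inr (Or.inl h2)
      · exact Or.inr (Or.inr ⟨g⁻¹, by
          by_contra h3; exact h2 ((D.Pinv g h1).2 h3), inv_inv g⟩)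
  exact Set.infinite_univ (((h.union (h.image _)).insert 1).subset this)

theorem in_inf [Infinite G] (v : Vx G) (hv : v ≠ s) : {x | E D x v}.Infinite := by
  have key : ∀ (k : G → Vx G) (g : G), Function.Injective k →
      (∀ p ∈ D.P, E D (k (g * p⁻¹)) v) → {x | E D x v}.Infinite := by
    intro k g hk h
    refine ((P_inf D).image (f := fun p => k (g * p⁻¹)) ?_).mono ?_
    · intro p _ q _ e
      simpa using hk e
    · rintro _ ⟨p, hp, rfl⟩; exact h p hp
  cases v with
  | s => exact absurd rfl hv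
  | f1 => exact key b 1 (fun _ _ h => by injection h) fun _ _ => trivial
  | f2 => exact key c 1 (fun _ _ h => by injection h) fun _ _ => trivial
  | a g => exact key a g (fun _ _ h => by injection h) fun p hp => by simpa [E] using hp
  | b g => exact key b g (fun _ _ h => by injection h) fun p hp => by simpa [E] using hp
  | c g => exact key c g (fun _ _ h => by injection h) fun p hp => by simpa [E] using hp

theorem in_s (x : Vx G) : E D x s ↔ x = f1 ∨ x = f2 := by
  cases x <;> simp [E]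

theorem fix_s [Infinite G] (φ : E D ≃r E D) : φ s = s := by
  by_contra h
  apply in_inf D _ h
  refine (((Set.finite_singleton f2).insert f1).image φ).subset fun x hx => ?_
  refine ⟨φ.symm x, ?_, by simp⟩
  have : E D (φ.symm x) s := by
    rw [← φ.map_rel_iff]; simpa using hx
  exact (in_s D _).1 this

theorem fix_f [Infinite G] (φ : E D ≃r E D) : φ f1 = f1 ∧ φ f2 = f2 := by
  have h1 : E D (φ f1) (φ s) := φ.map_rel_iff.2 trivial
  have h2 : E D (φ f2) (φ s) := φ.map_rel_iff.2 trivial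
  have h3 : E D (φ f1) (φ f2) := φ.map_rel_iff.2 trivial
  rw [fix_s, in_s] at h1 h2
  rcases h1 with h1 | h1 <;> rcases h2 with h2 | h2 <;> rw [h1, h2] at h3 <;>
    first | exact h3.elim | exact ⟨h1, h2⟩

theorem cls [Infinite G] (φ : E D ≃r E D) (g : G) :
    (∃ h, φ (a g) = a h) ∧ (∃ h, φ (b g) = b h) ∧ (∃ h, φ (c g) = c h) := by
  have k : ∀ v, (E D s (φ v) ↔ E D s v) ∧ (E D f1 (φ v) ↔ E D f1 v) ∧
      (E D f2 (φ v) ↔ E D f2 v) := fun v =>
    ⟨by nth_rewrite 1 [← fix_s D φ]; exact φ.map_rel_iff,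
     by nth_rewrite 1 [← (fix_f D φ).1]; exact φ.map_rel_iff,
     by nth_rewrite 1 [← (fix_f D φ).2]; exact φ.map_rel_iff⟩
  refine ⟨?_, ?_, ?_⟩
  · have := k (a g)
    generalize φ (a g) = w at this
    cases w <;> simp [E] at this ⊢
  · have := k (b g)
    generalize φ (b g) = w at this
    cases w <;> simp [E] at this ⊢
  · have := k (c g)
    generalize φ (c g) = w at this
    cases w <;> simp [E] at this ⊢

theorem lmh_bij [Infinite G] : Function.Bijective (lmh D) := by
  constructor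
  · intro t r h
    have := congrArg (fun φ : E D ≃r E D => φ (a 1)) h
    change a (t * 1) = a (r * 1) at this
    simpa using this
  · intro φ
    choose p hp using fun g => (cls D φ g).1
    choose q hq using fun g => (cls D φ g).2.1
    choose r hr using fun g => (cls D φ g).2.2
    have qs : ∀ h, ∃ g, q g = h := fun h => by
      obtain ⟨g, hg⟩ := (cls D φ.symm h).2.1
      refine ⟨g, ?_⟩
      have := hq g
      rw [← hg, RelIso.apply_symm_apply] at this
      injection this with t; exact t.symm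
    have rs : ∀ h, ∃ g, r g = h := fun h => by
      obtain ⟨g, hg⟩ := (cls D φ.symm h).2.2
      refine ⟨g, ?_⟩
      have := hr g
      rw [← hg, RelIso.apply_symm_apply] at this
      injection this with t; exact t.symm
    have ab : ∀ g h, (p g)⁻¹ * q h ∈ D.Y ↔ g⁻¹ * h ∈ D.Y := fun g h => by
      have : E D (φ (a g)) (φ (b h)) ↔ E D (a g) (b h) := φ.map_rel_iff
      rwa [hp, hq] at this
    have ac : ∀ g h, (p g)⁻¹ * r h ∈ D.Z ↔ g⁻¹ * h ∈ D.Z := fun g h => by
      have : E D (φ (a g)) (φ (c h)) ↔ E D (a g) (c h) := φ.map_rel_iff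
      rwa [hp, hr] at this
    have bc : ∀ g h, (q g)⁻¹ * r h ∈ D.S ↔ g⁻¹ * h ∈ D.S := fun g h => by
      have : E D (φ (b g)) (φ (c h)) ↔ E D (b g) (c h) := φ.map_rel_iff
      rwa [hq, hr] at this
    have main : ∀ g, (∀ y ∈ D.Y, (p g)⁻¹ * q (g * y) = y) ∧
        (∀ z ∈ D.Z, (p g)⁻¹ * r (g * z) = z) := by
      intro g
      refine D.rig (fun y => (p g)⁻¹ * q (g * y)) (fun z => (p g)⁻¹ * r (g * z)) ?_ ?_ ?_ ?_ ?_
      · intro y hy; rw [ab]; simpa using hy
      · intro z hz; rw [ac]; simpa using hz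
      · intro y _ z _
        have := bc (g * y) (g * z)
        simp only [mul_inv_rev, inv_inv, mul_assoc, mul_inv_cancel_left, inv_mul_cancel_left]
          at this ⊢
        exact this.symm
      · intro y hy
        obtain ⟨h, e⟩ := qs (p g * y)
        refine ⟨g⁻¹ * h, (ab g h).1 (by rw [e]; simpa using hy), ?_⟩
        simp [e]
      · intro z hz
        obtain ⟨h, e⟩ := rs (p g * z)
        refine ⟨g⁻¹ * h, (ac g h).1 (by rw [e]; simpa using hz), ?_⟩
        simp [e]
    have qp : ∀ g, q g = p g := fun g => by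
      have := (main g).1 1 D.Y1
      rw [mul_one, inv_mul_eq_one] at this; exact this.symm
    have rp : ∀ g, r g = p g := fun g => by
      have := (main g).2 1 D.Z1
      rw [mul_one, inv_mul_eq_one] at this; exact this.symm
    have mul : ∀ t : G, ∀ g : G, p (g * t) = p g * t := by
      intro t
      have ht : t ∈ Subgroup.closure (D.Y ∪ D.Z) := by rw [D.gen]; trivial
      induction ht using Subgroup.closure_induction with
      | mem t ht =>
        intro g
        rcases ht with ht | ht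
        · have := (main g).1 t ht
          rwa [qp, inv_mul_eq_iff_eq_mul] at this
        · have := (main g).2 t ht
          rwa [rp, inv_mul_eq_iff_eq_mul] at this
      | one => intro g; simp
      | mul x y _ _ hx hy => intro g; rw [← mul_assoc, hy, hx, mul_assoc]
      | inv x _ hx =>
        intro g
        have := hx (g * x⁻¹)
        rw [inv_mul_cancel_right] at this
        rw [this, mul_inv_cancel_right]
    have pg : ∀ g, p g = p 1 * g := fun g => by rw [← mul, one_mul]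
    refine ⟨p 1, RelIso.ext fun v => ?_⟩
    change act (p 1) v = φ v
    cases v with
    | s => exact (fix_s D φ).symm
    | f1 => exact (fix_f D φ).1.symm
    | f2 => exact (fix_f D φ).2.symm
    | a g => rw [hp, pg g]; rfl
    | b g => rw [hq, qp, pg g]; rfl
    | c g => rw [hr, rp, pg g]; rfl

end Gen

theorem result (G : Type u) [Group G] [Infinite G] (hG : ∀ g : G, g * g = 1 → g = 1) :
    ∃ (V : Type u) (A : V → V → Prop), (∀ v, ¬ A v v) ∧ (∀ x y, x ≠ y → (A x y ↔ ¬ A y x)) ∧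
      Nonempty ((A ≃r A) ≃* G) ∧
      ∃ R : Finset V, R.card ≤ 6 ∧ ∀ v, ∃ r ∈ R, ∃ φ : A ≃r A, φ r = v := by
  classical
  obtain ⟨D⟩ := exists_data hG
  refine ⟨Vx G, E D, E_irr D, E_tour D, ⟨(MulEquiv.ofBijective _ (lmh_bij D)).symm⟩,
    {Vx.s, Vx.f1, Vx.f2, Vx.a 1, Vx.b 1, Vx.c 1}, Finset.card_le_six, fun v => ?_⟩
  cases v with
  | s => exact ⟨Vx.s, by simp, 1, rfl⟩
  | f1 => exact ⟨Vx.f1, by simp, 1, rfl⟩
  | f2 => exact ⟨Vx.f2, by simp, 1, rfl⟩
  | a g => exact ⟨Vx.a 1, by simp, lm D g, congrArg Vx.a (mul_one g)⟩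
  | b g => exact ⟨Vx.b 1, by simp, lm D g, congrArg Vx.b (mul_one g)⟩
  | c g => exact ⟨Vx.c 1, by simp, lm D g, congrArg Vx.c (mul_one g)⟩

end Pool.Agent.Results.MP_4ac3ef_co.Six
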